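import Pool.Agent.Q276.LR.E3

/-!
# Rigidity of the gaps between the zeta zeros

Assume the Riemann hypothesis and let `δ_n` be the unfolded gaps between the zeta zeros.  The first
part of the theorem says that the gaps are linearly rigid, as the GUE hypothesis predicts (the sine
process is number rigid by Ghosh): the sum of `K` consecutive gaps is, up to an error which tends to
zero in the mean as `R = 2^J` tends to infinity, an explicit linear function of the `2 R` gaps
outside of the block.  For one gap (`K = 1`) the mean error is `O((log R)^(-1/2))`.  The second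
part says that gaps at some bounded distance are negatively correlated.

Proof.  Let `Φ_J(x) = (1/J) ∑_{j ≤ J} max(0, 1 - |x|/2^j)`.  Montgomery's theorem (form factor
`|α|` for `|α| < 1`), applied in short windows to the square of the Fourier transform of `Φ_J`
(smoothly cut off), shows that `∑_m Φ_J(x - y_m) - ∫ Φ_J` is small on average over `x`, since the
dyadic averaging makes `∫ |α| |Φ_J^(α)|² dα` of order `1/J`; a local argument gives the same at the
points `x = y_n`.  As `x ↦ max(0, 1 - |x|)` is convex on each side, one gets a lower bound for the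
weighted sum of the gaps around the `n`-th one in terms of `∑_m Φ_J(y_n - y_m)`, and the mean of
these weighted sums is zero, whence the upper bound in the mean.
-/

set_option autoImplicit false

open Filter

namespace Pool.Agent.Results.MP_7eacff_nt.LinearRigidity

/-- multiplicity of `s` as a zero of the Riemann zeta function (order of vanishing at `s`) -/
noncomputable def zmult (s : ℂ) : ℕ := analyticOrderNatAt riemannZeta s

/-- the number of nontrivial zeros of `ζ` with ordinate in `(0, t]`, with multiplicity -/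
noncomputable def NZ (t : ℝ) : ℕ :=
  ∑ᶠ s ∈ {s : ℂ | riemannZeta s = 0 ∧ 0 < s.re ∧ s.re < 1 ∧ 0 < s.im ∧ s.im ≤ t}, zmult s

/-- for `n ≥ 1`: the `n`-th positive ordinate `γ n` of a nontrivial zero of `ζ`, the ordinates being
listed in nondecreasing order and repeated according to multiplicity -/
noncomputable def γ (n : ℕ) : ℝ := sInf {t : ℝ | n ≤ NZ t}

/-- the unfolded gaps `δ_n = (γ_{n+1} - γ_n) / 2π * log (γ_n / 2π)` -/
noncomputable def δ (n : ℕ) : ℝ :=
  (γ (n + 1) - γ n) / (2 * Real.pi) * Real.log (γ n / (2 * Real.pi))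

/-- the weights `w_J(k) = (1/J) ∑_{j=1}^J max(0, 1 - k/2^j)`; here `w_J(0) = 1` and `w_J(k) = 0`
for `k ≥ 2^J` -/
noncomputable def w (J k : ℕ) : ℝ :=
  (1 / J : ℝ) * ∑ j ∈ Finset.Icc 1 J, max 0 (1 - (k : ℝ) / 2 ^ j)

/-- the weight, for a block of `K` consecutive gaps, of the `k`-th gap before and of the `k`-th gap
after the block: `u_{J,K}(k) = (w_J(k) + w_J(k+1) + … + w_J(k+K-1)) / K`, so `u_{J,1} = w_J` -/
noncomputable def u (J K k : ℕ) : ℝ := (1 / K : ℝ) * ∑ i ∈ Finset.range K, w J (k + i)

/-- On the Riemann hypothesis: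

(1) there is an absolute constant `C` such that for all `J, K ≥ 1` and all large `N` the average over
`2^J < n ≤ N` of the distance between the sum of the `K` gaps `δ_n, …, δ_{n+K-1}` and
`K - ∑_{1 ≤ k ≤ 2^J} u_{J,K}(k) ((δ_{n-k} - 1) + (δ_{n+K-1+k} - 1))` is at most
`C (1/√J + K (1 + log K)/J)`;

(2) there are `R` and `c > 0` such that for all large `N` there is `1 ≤ k ≤ R` for which the average
over `R < n ≤ N` of `sgn(δ_n - 1) ((δ_{n-k} - 1) + (δ_{n+k} - 1))` is at most `-c`. -/
theorem result (RH : RiemannHypothesis) :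
    (∃ C : ℝ, 0 < C ∧ ∀ J K : ℕ, 1 ≤ J → 1 ≤ K → ∀ᶠ N : ℕ in atTop,
      (1 / N : ℝ) * ∑ n ∈ Finset.Ioc (2 ^ J) N,
        |∑ i ∈ Finset.range K, (δ (n + i) - 1) + ∑ k ∈ Finset.Icc 1 (2 ^ J),
          u J K k * ((δ (n - k) - 1) + (δ (n + K - 1 + k) - 1))| ≤
      C * (1 / Real.sqrt J + K * (1 + Real.log K) / J)) ∧
    (∃ (R : ℕ) (c : ℝ), 0 < c ∧ ∀ᶠ N : ℕ in atTop, ∃ k ∈ Finset.Icc 1 R,
      (1 / N : ℝ) * ∑ n ∈ Finset.Ioc R N,
        Real.sign (δ n - 1) * ((δ (n - k) - 1) + (δ (n + k) - 1)) ≤ -c) := by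
  have hx : ∀ n, Pool.Agent.Q276.LR.xx n = δ n - 1 := fun n => rfl
  have hw : ∀ J k, Pool.Agent.Q276.LR.wt J k = w J k := fun J k => by
    unfold Pool.Agent.Q276.LR.wt w
    rw [one_div]
  have hu : ∀ J K k, Pool.Agent.Q276.LR.ut J K k = u J K k := fun J K k => by
    unfold Pool.Agent.Q276.LR.ut u
    rw [one_div]
    simp only [hw]
  constructor
  · obtain ⟨C, hC, h⟩ := Pool.Agent.Q276.LR.blocks_rigid RH
    refine ⟨C, hC, fun J K hJ hK => ?_⟩
    filter_upwards [h J K hJ hK, eventually_gt_atTop 0] with N hN hN0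
    have hN' : (0 : ℝ) < N := by exact_mod_cast hN0
    unfold Pool.Agent.Q276.LR.BB at hN
    simp only [hx, hu] at hN
    rw [one_div, inv_mul_le_iff₀ hN']
    linarith
  · obtain ⟨R, c, hc, h⟩ := Pool.Agent.Q276.LR.neg_corr RH
    refine ⟨R, c, hc, ?_⟩
    filter_upwards [h, eventually_gt_atTop 0] with N hN hN0
    have hN' : (0 : ℝ) < N := by exact_mod_cast hN0
    obtain ⟨k, hk, h1⟩ := hN
    refine ⟨k, hk, ?_⟩
    simp only [hx] at h1
    rw [one_div, inv_mul_le_iff₀ hN']
    linarith

end Pool.Agent.Results.MP_7eacff_nt.LinearRigidity
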